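import Pool.Agent.LHR.Assemble
import Pool.Agent.LHT.Hull

namespace Pool.Agent.Results.MP_74b890_co.DimensionThree

open Pool.Agent.LHT

/-- Every `s`-lecture hall simplex of dimension three has a regular unimodular triangulation. -/
theorem result : ∀ s : Fin 3 → ℕ, (∀ i, 0 < s i) → HasRUT (simplex s) :=
  fun s hs => hasRUT_of_RL hs (LHR.all_fin s hs)

end Pool.Agent.Results.MP_74b890_co.DimensionThree
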