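import Pool.Agent.LHU.Assemble
import Pool.Agent.LHU.FIN

namespace Pool.Agent.Results.MP_74b890_co.MarkedClass

open Pool.Agent.LHT Pool.Agent.LHU

/-- Regular unimodular triangulations of lecture hall simplices in every dimension. -/
theorem result :
    -- every sequence of the class `Mk` has a regular unimodular triangulation
    (∀ l : List ℕ, Mk l → (∀ x ∈ l, 0 < x) ∧ HasRUT (PL l)) ∧
    -- the explicit condition
    (∀ (n : ℕ) (s : Fin n → ℕ), (∀ i, 0 < s i) →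
      (∀ i j k : Fin n, (j : ℕ) = i + 1 → (k : ℕ) = j + 1 → 3 ≤ s i → 3 ≤ s j → 3 ≤ s k →
        (s i ≤ 3 ∨ s j ≤ 3 ∨ (s i ≤ 4 ∧ s j ≤ 4)) ∧
        (s j ≤ 3 ∨ s k ≤ 3 ∨ (s j ≤ 4 ∧ s k ≤ 4))) →
      HasRUT (simplex s)) ∧
    -- maximal runs of entries at least three may be treated separately
    (∀ l : List ℕ, (∀ x ∈ l, 0 < x) →
      (∀ b, Run l b → b.length ≤ 2 ∨ Adm b ∨ Mk b) → Mk l) ∧
    -- sequences of length three with two even entries are in the class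
    (∀ a b c : ℕ, 0 < a → 0 < b → 0 < c →
      (Even a ∧ Even b) ∨ (Even a ∧ Even c) ∨ (Even b ∧ Even c) → Mk [a, b, c]) ∧
    -- four closure rules for the existence of a regular unimodular triangulation
    (∀ (l1 l2 : List ℕ) (m : ℕ), (∀ x ∈ l1, 0 < x) → (∀ x ∈ l2, 0 < x) → 0 < m →
      Nat.lcm (l1.getLastD 1) (l2.headD 1) ∣ m → HasRUT (PL (l1 ++ l2)) →
      HasRUT (PL (l1 ++ m :: l2))) ∧
    (∀ (l1 l2 : List ℕ) (m j : ℕ), (∀ x ∈ l1, 0 < x) → (∀ x ∈ l2, 0 < x) → 0 < m →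
      l1.getLastD 1 ∣ m → HasRUT (PL (l1 ++ m :: l2)) →
      HasRUT (PL (l1 ++ (m + j * Nat.lcm (l1.getLastD 1) (l2.headD 1)) :: l2))) ∧
    (∀ l : List ℕ, (∀ x ∈ l, 0 < x) → HasRUT (PL l) → HasRUT (PL l.reverse)) ∧
    (∀ l1 l2 : List ℕ, (∀ x ∈ l1, 0 < x) → (∀ x ∈ l2, 0 < x) → HasRUT (PL l1) →
      HasRUT (PL l2) → HasRUT (PL (l1 ++ 1 :: l2))) :=
  ⟨fun _ h => ⟨h.pos, mk_rut h⟩,
    fun _ s hs hc => rut_ofFn s hs (mk_rut (mk_ofFn s hs hc)),
    fun l hl h => runs_mk l.length l le_rfl hl h,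
    fun a b c ha hb hc h =>
      mk_three (fun s hs => hasRUT_of_RL hs (LHR.all_fin s hs)) a b c ha hb hc h,
    rut_insert, rut_increase, rut_reverse, rut_join⟩

end Pool.Agent.Results.MP_74b890_co.MarkedClass
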